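import Pool.Agent.Lib.MP_166ce5_al.Tower

/-!
# Transitivity and long self-avoiding words
-/

set_option autoImplicit false

namespace Pool.Agent.Lib.MP_166ce5_al

theorem lift_some (i m : ℕ) (a : A (i + 1)) : ∃ w : List (Option (A i)),
    ∀ y : Y (i + 1) m, ev i (m + 1) w (mk 0 y) = mk 0 (tr (i + 1) m a y) := by
  classical
  have hsum : a = ∑ j, Pi.single j (a j) := (Finset.univ_sum_single a).symm
  rw [hsum]
  refine Finset.sum_induction (fun j => (Pi.single j (a j) : A (i + 1)))
    (fun b : A (i + 1) => ∃ w : List (Option (A i)),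
      ∀ y : Y (i + 1) m, ev i (m + 1) w (mk 0 y) = mk 0 (tr (i + 1) m b y)) ?_ ?_ ?_
  · rintro b b' ⟨w, hw⟩ ⟨w', hw'⟩
    refine ⟨w ++ w', fun y => ?_⟩
    rw [ev_append, Equiv.Perm.mul_apply, hw', hw, ← tr_add, Equiv.Perm.mul_apply]
  · refine ⟨[], fun y => ?_⟩
    rw [ev_nil, tr_zero]
    rfl
  · intro j _
    have h01 : a j = 0 ∨ a j = 1 := by
      have : ∀ z : ZMod 2, z = 0 ∨ z = 1 := by decide
      exact this (a j)
    rcases h01 with h | h
    · refine ⟨[], fun y => ?_⟩
      rw [h, Pi.single_zero, ev_nil, tr_zero]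
      rfl
    · obtain ⟨x, hx, hl⟩ := lam_surj i j
      refine ⟨[some x, none, some x], fun y => ?_⟩
      rw [ev_cons, ev_cons, ev_cons, ev_nil, mul_one, Equiv.Perm.mul_apply,
        Equiv.Perm.mul_apply]
      simp only [letter]
      rw [tr_succ, add_zero, bb_succ_ne _ _ _ hx, tr_succ, A_add_self, hl, h]

theorem lift_word (i m : ℕ) (v : List (Option (A (i + 1)))) : ∃ w : List (Option (A i)),
    ∀ y : Y (i + 1) m, ev i (m + 1) w (mk 0 y) = mk 0 (ev (i + 1) m v y) := by
  induction v with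
  | nil =>
    refine ⟨[], fun y => ?_⟩
    rw [ev_nil, ev_nil]
    rfl
  | cons l v ih =>
    obtain ⟨w, hw⟩ := ih
    have hl : ∃ u : List (Option (A i)),
        ∀ y : Y (i + 1) m, ev i (m + 1) u (mk 0 y) = mk 0 (letter (i + 1) m l y) := by
      cases l with
      | none =>
        refine ⟨[none], fun y => ?_⟩
        rw [ev_cons, ev_nil, mul_one]
        exact bb_succ_zero i m y
      | some a => exact lift_some i m a
    obtain ⟨u, hu⟩ := hl
    refine ⟨u ++ w, fun y => ?_⟩
    rw [ev_append, Equiv.Perm.mul_apply, hw, hu, ev_cons, Equiv.Perm.mul_apply]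

theorem transitive_Y : ∀ (m i : ℕ) (y : Y i m), ∃ w : List (Option (A i)),
    ev i m w (y0 i m) = y := by
  intro m
  induction m with
  | zero => intro i y; exact ⟨[], rfl⟩
  | succ m ih =>
    intro i z
    obtain ⟨x, y, rfl⟩ := mk_surj z
    obtain ⟨v, hv⟩ := ih (i + 1) y
    obtain ⟨w, hw⟩ := lift_word i m v
    refine ⟨some x :: w, ?_⟩
    have : y0 i (m + 1) = mk 0 (y0 (i + 1) m) := rfl
    rw [this, ev_cons, Equiv.Perm.mul_apply, hw, hv]
    simp only [letter]
    rw [tr_succ, add_zero]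

theorem card_Y : ∀ (m i : ℕ), 2 ^ m ≤ Nat.card (Y i m) := by
  intro m
  induction m with
  | zero =>
    intro i
    have : Nat.card (Y i 0) = 1 := Nat.card_unique (α := Unit)
    rw [this, pow_zero]
  | succ m ih =>
    intro i
    have h1 : Nat.card (Y i (m + 1)) = Nat.card (A i) * Nat.card (Y (i + 1) m) :=
      Nat.card_prod (A i) (Y (i + 1) m)
    have h2 : 2 ≤ Nat.card (A i) := by
      rw [Nat.card_fun, Nat.card_zmod, Nat.card_fin]
      calc 2 = 2 ^ 1 := (pow_one 2).symm
        _ ≤ 2 ^ (N i) := Nat.pow_le_pow_right (by norm_num) (by unfold N; omega)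
    rw [h1, pow_succ']
    exact Nat.mul_le_mul h2 (ih (i + 1))

/-- For every `n` some point at some level is not reached by words of length at most `n`. -/
theorem exists_far (n : ℕ) : ∃ m, ∃ y : Y 0 m, ∀ w : List (Option (A 0)), w.length ≤ n →
    ev 0 m w (y0 0 m) ≠ y := by
  have hfin : {w : List (Option (A 0)) | w.length ≤ n}.Finite := List.finite_length_le _ n
  obtain ⟨m, hm⟩ : ∃ m : ℕ, {w : List (Option (A 0)) | w.length ≤ n}.ncard < 2 ^ m :=
    ⟨_, Nat.lt_two_pow_self⟩
  refine ⟨m, ?_⟩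
  by_contra hcon
  push Not at hcon
  have hsub : (Set.univ : Set (Y 0 m)) ⊆
      (fun w => ev 0 m w (y0 0 m)) '' {w : List (Option (A 0)) | w.length ≤ n} := by
    intro y _
    obtain ⟨w, hw, hy⟩ := hcon y
    exact ⟨w, hw, hy⟩
  have h1 := Set.ncard_le_ncard hsub (hfin.image _)
  have h2 := Set.ncard_image_le (f := fun w => ev 0 m w (y0 0 m)) hfin
  rw [Set.ncard_univ] at h1
  have h3 := card_Y m 0
  omega

/-- Words whose prefixes have pairwise distinct values. -/
theorem exists_selfAvoiding (n : ℕ) : ∃ m, ∃ w : List (Option (A 0)), n ≤ w.length ∧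
    ∀ i j, i < j → j ≤ w.length → ev 0 m (w.take i) ≠ ev 0 m (w.take j) := by
  classical
  obtain ⟨m, y, hy⟩ := exists_far n
  have hex : ∃ L : ℕ, ∃ w : List (Option (A 0)), w.length = L ∧ ev 0 m w (y0 0 m) = y := by
    obtain ⟨w, hw⟩ := transitive_Y m 0 y
    exact ⟨w.length, w, rfl, hw⟩
  obtain ⟨w, hlen, hw⟩ := Nat.find_spec hex
  refine ⟨m, w, ?_, ?_⟩
  · by_contra hlt
    exact hy w (by omega) hw
  · intro i j hij hj heq
    have hmin := Nat.find_min hex (m := (w.take i ++ w.drop j).length) (by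
      rw [← hlen, List.length_append, List.length_take, List.length_drop]
      omega)
    apply hmin
    refine ⟨w.take i ++ w.drop j, rfl, ?_⟩
    rw [ev_append, heq, ← ev_append, List.take_append_drop]
    exact hw

end Pool.Agent.Lib.MP_166ce5_al
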