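import Pool.Agent.Lib.MP_166ce5_al.Growth

/-!
# The lamplighter group over the tower group
-/

set_option autoImplicit false

namespace Pool.Agent.Lib.MP_166ce5_al

/-- The lamp group, cyclic of order two. -/
abbrev D2 : Type := Multiplicative (ZMod 2)

theorem D2_sq (d : D2) : d * d = 1 := by
  have : ∀ z : ZMod 2, z + z = 0 := by decide
  exact congrArg Multiplicative.ofAdd (this (Multiplicative.toAdd d))

/-- The finite lamplighter group at level `m`. -/
abbrev W (m : ℕ) : Type := RegularWreathProduct D2 (Equiv.Perm (Y 0 m))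

open Classical in
/-- The lamp switch. -/
noncomputable def sw (m : ℕ) (d : D2) : W m := ⟨Pi.mulSingle 1 d, 1⟩

/-- Letters of the big group. -/
abbrev L : Type := Option (Option (A 0))

/-- Generators at level `m`. -/
noncomputable def gen (m : ℕ) : L → W m
  | none => sw m (Multiplicative.ofAdd 1)
  | some l => RegularWreathProduct.inl (letter 0 m l)

theorem W_sq {m : ℕ} (a : W m) (ha : a.right = 1) : a * a = 1 := by
  apply RegularWreathProduct.ext
  · funext x
    simp only [RegularWreathProduct.mul_left, RegularWreathProduct.one_left, Pi.mul_apply,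
      Pi.one_apply, ha, inv_one, one_mul]
    exact D2_sq _
  · simp [ha]

theorem gen_sq (m : ℕ) (l : L) : gen m l * gen m l = 1 := by
  cases l with
  | none => exact W_sq _ rfl
  | some l =>
    simp only [gen]
    rw [← map_mul, letter_sq, map_one]

/-- Evaluation of words in the product of all levels. -/
noncomputable def G0gen (l : L) : (∀ m, W m) := fun m => gen m l

/-- The group. -/
noncomputable def GG : Subgroup (∀ m, W m) := Subgroup.closure (Set.range G0gen)

/-- Generators as elements of the group. -/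
noncomputable def g0 (l : L) : GG := ⟨G0gen l, Subgroup.subset_closure ⟨l, rfl⟩⟩

theorem g0_sq (l : L) : g0 l * g0 l = 1 := by
  apply Subtype.ext
  funext m
  exact gen_sq m l

theorem g0_inv (l : L) : (g0 l)⁻¹ = g0 l := by
  rw [inv_eq_iff_mul_eq_one, g0_sq]

open Classical in
/-- The finite generating set. -/
noncomputable def SS : Finset GG := Finset.univ.image g0

theorem mem_SS (x : GG) : x ∈ SS ↔ ∃ l, g0 l = x := by
  simp [SS]

theorem closure_SS : Subgroup.closure (SS : Set GG) = ⊤ := by
  have h : (SS : Set GG) = ((↑) ⁻¹' (Set.range G0gen) : Set GG) := by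
    ext x
    rw [Finset.mem_coe, mem_SS]
    constructor
    · rintro ⟨l, rfl⟩; exact ⟨l, rfl⟩
    · rintro ⟨l, hl⟩; exact ⟨l, Subtype.ext hl⟩
  rw [h]
  exact Subgroup.closure_closure_coe_preimage

/-- Evaluation of words in the group. -/
noncomputable def eg (w : List L) : GG := (w.map g0).prod

/-- The ball of radius `n`. -/
def ball (n : ℕ) : Set GG := {g : GG | ∃ l : List GG, l.length ≤ n ∧
          (∀ x ∈ l, x ∈ SS ∨ x⁻¹ ∈ SS) ∧ l.prod = g}

theorem mem_ball (n : ℕ) (g : GG) : g ∈ ball n ↔ ∃ w : List L, w.length ≤ n ∧ eg w = g := by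
  constructor
  · rintro ⟨l, hl, hx, rfl⟩
    induction l generalizing n with
    | nil => exact ⟨[], by simp, rfl⟩
    | cons x l ih =>
      obtain ⟨n', rfl⟩ : ∃ n', n = n' + 1 := ⟨n - 1, by simp at hl; omega⟩
      obtain ⟨w, hw, hw'⟩ := ih n' (by simpa using hl)
        (fun y hy => hx y (List.mem_cons_of_mem _ hy))
      have hx0 : ∃ a, g0 a = x := by
        rcases hx x (by simp) with h | h
        · exact (mem_SS x).mp h
        · obtain ⟨a, ha⟩ := (mem_SS _).mp h
          exact ⟨a, by rw [← g0_inv, ha, inv_inv]⟩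
      obtain ⟨a, ha⟩ := hx0
      refine ⟨a :: w, by simpa using hw, ?_⟩
      simp only [eg, List.map_cons, List.prod_cons, ha] at hw' ⊢
      rw [hw']
  · rintro ⟨w, hw, rfl⟩
    refine ⟨w.map g0, by simpa using hw, ?_, rfl⟩
    intro x hx
    rw [List.mem_map] at hx
    obtain ⟨a, _, rfl⟩ := hx
    exact Or.inl ((mem_SS _).mpr ⟨a, rfl⟩)

theorem ball_finite (n : ℕ) : (ball n).Finite := by
  have hfin : {w : List L | w.length ≤ n}.Finite := List.finite_length_le _ n
  refine (hfin.image eg).subset ?_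
  intro g hg
  obtain ⟨w, hw, rfl⟩ := (mem_ball n g).mp hg
  exact ⟨w, hw, rfl⟩

theorem ball_mono {n n' : ℕ} (h : n ≤ n') : ball n ⊆ ball n' := by
  rintro g ⟨l, hl, hx⟩
  exact ⟨l, le_trans hl h, hx⟩

theorem eg_apply (w : List L) (m : ℕ) : (eg w).val m = (w.map (gen m)).prod := by
  induction w with
  | nil => rfl
  | cons a w ih =>
    have : eg (a :: w) = g0 a * eg w := by simp [eg]
    rw [this]
    simp only [List.map_cons, List.prod_cons, ← ih]
    rfl

/-- The lamp-free part of a word. -/
def core (w : List L) : List (Option (A 0)) := w.filterMap id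

theorem core_length (w : List L) : (core w).length ≤ w.length := List.length_filterMap_le _ _

theorem right_prod (w : List L) (m : ℕ) :
    ((w.map (gen m)).prod).right = ev 0 m (core w) := by
  induction w with
  | nil => rfl
  | cons a w ih =>
    rw [List.map_cons, List.prod_cons, RegularWreathProduct.mul_right, ih]
    cases a with
    | none => simp [gen, sw, core]
    | some l => simp [gen, core, ev_cons]

theorem right_pow {m : ℕ} (a : W m) (k : ℕ) : (a ^ k).right = a.right ^ k := by
  induction k with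
  | zero => rfl
  | succ k ih => rw [pow_succ, RegularWreathProduct.mul_right, ih, pow_succ]

/-- Period bound. -/
theorem eg_pow (w : List L) (n k : ℕ) (hw : w.length ≤ n) (hk : n + N 0 ≤ 4 ^ k) :
    (eg w) ^ (4 * 2 ^ k * 2) = 1 := by
  have hD : 2 * (n + N 0) ≤ D (0 + k) := by
    unfold D
    rw [zero_add]
    omega
  apply Subtype.ext
  funext m
  have h1 : ((eg w) ^ (4 * 2 ^ k * 2)).val m = ((eg w).val m) ^ (4 * 2 ^ k * 2) := rfl
  rw [h1, pow_mul, pow_two]
  show _ = 1
  apply W_sq
  rw [right_pow, eg_apply, right_prod]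
  refine main_pow (n + N 0) k 0 m (core w) ?_ ⟨Finset.univ, ?_, ?_⟩ hD
  · have := bet_le_length (core w)
    have := core_length w
    omega
  · rw [Finset.card_univ, Fintype.card_fin]; omega
  · intro a _ j _; exact Finset.mem_univ j

theorem exists_word (g : GG) : ∃ w : List L, eg w = g := by
  have hg : g ∈ Subgroup.closure (SS : Set GG) := by rw [closure_SS]; trivial
  induction hg using Subgroup.closure_induction with
  | mem x hx =>
    obtain ⟨l, rfl⟩ := (mem_SS x).mp hx
    exact ⟨[l], by simp [eg]⟩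
  | one => exact ⟨[], rfl⟩
  | mul x y _ _ hx hy =>
    obtain ⟨w, rfl⟩ := hx
    obtain ⟨w', rfl⟩ := hy
    exact ⟨w ++ w', by simp [eg]⟩
  | inv x _ hx =>
    obtain ⟨w, rfl⟩ := hx
    refine ⟨w.reverse, ?_⟩
    clear * -
    induction w with
    | nil => simp [eg]
    | cons a w ih =>
      have e1 : eg (a :: w) = g0 a * eg w := by simp [eg]
      have e2 : eg ((a :: w).reverse) = eg w.reverse * g0 a := by simp [eg]
      rw [e1, e2, ih, mul_inv_rev, g0_inv]

theorem exists_clog (n : ℕ) : ∃ k : ℕ, n + N 0 ≤ 4 ^ k ∧ 4 ^ k ≤ 4 * (n + N 0) := by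
  refine ⟨Nat.clog 4 (n + N 0), Nat.le_pow_clog (by norm_num) _, ?_⟩
  have h2 : 1 < n + N 0 := by unfold N; omega
  have h3 := Nat.pow_pred_clog_lt_self (b := 4) (by norm_num) h2
  have h4 : 0 < Nat.clog 4 (n + N 0) := Nat.clog_pos (by norm_num) h2
  obtain ⟨c, hc⟩ : ∃ c, Nat.clog 4 (n + N 0) = c + 1 := ⟨_, (Nat.succ_pred_eq_of_pos h4).symm⟩
  rw [hc] at h3 ⊢
  simp only [Nat.pred_succ] at h3
  rw [pow_succ]
  omega

theorem isOfFinOrder_GG (g : GG) : IsOfFinOrder g := by
  obtain ⟨w, rfl⟩ := exists_word g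
  obtain ⟨k, hk, _⟩ := exists_clog w.length
  rw [isOfFinOrder_iff_pow_eq_one]
  exact ⟨4 * 2 ^ k * 2, by positivity, eg_pow w _ k le_rfl hk⟩

theorem rf_GG (g : GG) (hg : g ≠ 1) :
    ∃ K : Subgroup GG, K.Normal ∧ K.index ≠ 0 ∧ g ∉ K := by
  have : ∃ m, g.val m ≠ 1 := by
    by_contra hcon
    push Not at hcon
    exact hg (Subtype.ext (funext hcon))
  obtain ⟨m, hm⟩ := this
  let f : GG →* W m := (Pi.evalMonoidHom W m).comp GG.subtype
  refine ⟨f.ker, inferInstance, ?_, ?_⟩
  · rw [Subgroup.index_ker]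
    exact Nat.card_pos.ne'
  · intro h
    exact hm h

/-- Words with lamps at the prefixes of `w`. -/
def lw (e : ℕ → Bool) (w : List (Option (A 0))) : ℕ → List L
  | 0 => if e 0 then [none] else []
  | j + 1 => lw e w j ++ (some (w.getD j none) :: (if e (j + 1) then [none] else []))

theorem lw_length (e : ℕ → Bool) (w : List (Option (A 0))) (j : ℕ) :
    (lw e w j).length ≤ 2 * j + 1 := by
  induction j with
  | zero => simp only [lw]; split <;> simp
  | succ j ih =>
    simp only [lw, List.length_append, List.length_cons]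
    split
    · simp; omega
    · simp; omega

/-- Lamp value. -/
def lv (b : Bool) : D2 := if b then Multiplicative.ofAdd 1 else 1

theorem lv_inj (b b' : Bool) (h : lv b = lv b') : b = b' := by
  cases b <;> cases b' <;> simp [lv] at h ⊢ <;> exact absurd h (by decide)

open Classical in
theorem lw_eval (m : ℕ) (e : ℕ → Bool) (w : List (Option (A 0)))
    (hw : ∀ i j, i < j → j ≤ w.length → ev 0 m (w.take i) ≠ ev 0 m (w.take j)) (j : ℕ)
    (hj : j ≤ w.length) :
    (((lw e w j).map (gen m)).prod).right = ev 0 m (w.take j) ∧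
    (∀ i, i ≤ j → (((lw e w j).map (gen m)).prod).left (ev 0 m (w.take i)) = lv (e i)) ∧
    (∀ x, (∀ i, i ≤ j → x ≠ ev 0 m (w.take i)) →
      (((lw e w j).map (gen m)).prod).left x = 1) := by
  have hsw : ∀ b : Bool, (((if b then [none] else [] : List L)).map (gen m)).prod = sw m (lv b) := by
    intro b
    cases b
    · apply RegularWreathProduct.ext
      · funext x; simp [sw, lv]
      · simp [sw]
    · simp [gen, lv]
  induction j with
  | zero =>
    simp only [lw, hsw]
    refine ⟨by simp [sw, ev_nil], ?_, ?_⟩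
    · intro i hi
      obtain rfl : i = 0 := by omega
      simp [sw, ev_nil]
    · intro x hx
      have := hx 0 le_rfl
      simp only [List.take_zero, ev_nil] at this
      simp [sw, Pi.mulSingle_eq_of_ne this]
  | succ j ih =>
    obtain ⟨h1, h2, h3⟩ := ih (by omega)
    have hjl : j < w.length := by omega
    have htake : ev 0 m (w.take (j + 1)) = ev 0 m (w.take j) * letter 0 m (w.getD j none) := by
      rw [List.take_succ_eq_append_getElem hjl, ev_append, ev_cons, ev_nil, mul_one,
        List.getD_eq_getElem _ _ hjl]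
    have hprod : ((lw e w (j + 1)).map (gen m)).prod =
        ((lw e w j).map (gen m)).prod *
          (RegularWreathProduct.inl (letter 0 m (w.getD j none)) * sw m (lv (e (j + 1)))) := by
      simp only [lw, List.map_append, List.prod_append, List.map_cons, List.prod_cons, hsw]
      rfl
    set P := ((lw e w j).map (gen m)).prod with hP
    have hleft : ∀ x, (((lw e w (j + 1)).map (gen m)).prod).left x =
        P.left x * (if x = ev 0 m (w.take (j + 1)) then lv (e (j + 1)) else 1) := by
      intro x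
      rw [hprod]
      simp only [RegularWreathProduct.mul_left, Pi.mul_apply, RegularWreathProduct.left_inl,
        RegularWreathProduct.right_inl, h1, Pi.one_apply, one_mul, sw]
      congr 1
      rw [htake]
      by_cases hx : x = ev 0 m (w.take j) * letter 0 m (w.getD j none)
      · subst hx
        simp
      · rw [if_neg hx, Pi.mulSingle_eq_of_ne]
        intro hh
        apply hx
        have : x = ev 0 m (w.take j) * (letter 0 m (w.getD j none) *
            ((letter 0 m (w.getD j none))⁻¹ * ((ev 0 m (w.take j))⁻¹ * x))) := by group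
        rw [this, hh, mul_one]
    refine ⟨?_, ?_, ?_⟩
    · rw [hprod, RegularWreathProduct.mul_right, RegularWreathProduct.mul_right, h1, htake]
      simp [sw]
    · intro i hi
      rw [hleft]
      rcases Nat.lt_or_ge i (j + 1) with hlt | hge
      · rw [h2 i (by omega), if_neg (hw i (j + 1) hlt hj), mul_one]
      · obtain rfl : i = j + 1 := by omega
        rw [if_pos rfl, h3, one_mul]
        intro i' hi'
        exact (hw i' (j + 1) (by omega) hj).symm
    · intro x hx
      rw [hleft, if_neg (hx (j + 1) le_rfl), mul_one]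
      exact h3 x (fun i hi => hx i (by omega))

theorem ball_odd (k : ℕ) : 2 ^ (k + 1) ≤ (ball (2 * k + 1)).ncard := by
  classical
  obtain ⟨m, w, hlen, hw⟩ := exists_selfAvoiding k
  let F : (Fin (k + 1) → Bool) → GG := fun f =>
    eg (lw (fun i => if h : i < k + 1 then f ⟨i, h⟩ else false) w k)
  have hF : Function.Injective F := by
    intro f f' hff
    funext i
    have h1 := congrArg (fun g : GG => (g.val m).left (ev 0 m (w.take i.val))) hff
    simp only [F, eg_apply] at h1
    have hi : i.val ≤ k := by omega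
    rw [(lw_eval m _ w hw k hlen).2.1 i.val hi, (lw_eval m _ w hw k hlen).2.1 i.val hi] at h1
    have h2 := lv_inj _ _ h1
    rw [dif_pos i.isLt, dif_pos i.isLt] at h2
    exact h2
  have hsub : Set.range F ⊆ ball (2 * k + 1) := by
    rintro _ ⟨f, rfl⟩
    rw [mem_ball]
    exact ⟨_, lw_length _ _ _, rfl⟩
  have h1 := Set.ncard_le_ncard hsub (ball_finite _)
  have h2 : (Set.range F).ncard = 2 ^ (k + 1) := by
    rw [← Set.image_univ, Set.ncard_image_of_injective _ hF, Set.ncard_univ, Nat.card_fun]
    simp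
  omega

theorem ball_growth (n : ℕ) : ((7 : ℝ) / 5) ^ n ≤ ((ball n).ncard : ℝ) := by
  rcases Nat.even_or_odd' n with ⟨k, rfl | rfl⟩
  · have h1 : ((7 : ℝ) / 5) ^ (2 * k) ≤ 2 ^ k := by
      rw [pow_mul]
      exact pow_le_pow_left₀ (by norm_num) (by norm_num) k
    refine le_trans h1 ?_
    cases k with
    | zero =>
      have : (1 : GG) ∈ ball 0 := ⟨[], by simp, by simp, rfl⟩
      have h2 : 0 < (ball (2 * 0)).ncard := (Set.ncard_pos (ball_finite _)).mpr ⟨1, this⟩
      have h3 : (1 : ℝ) ≤ ((ball (2 * 0)).ncard : ℝ) := by exact_mod_cast h2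
      simpa using h3
    | succ k =>
      have h2 := ball_odd k
      have h3 := Set.ncard_le_ncard (ball_mono (show 2 * k + 1 ≤ 2 * (k + 1) by omega))
        (ball_finite _)
      exact_mod_cast le_trans h2 h3
  · have h1 : ((7 : ℝ) / 5) ^ (2 * k + 1) ≤ 2 ^ (k + 1) := by
      rw [pow_succ, pow_mul, pow_succ]
      exact mul_le_mul (pow_le_pow_left₀ (by norm_num) (by norm_num) k) (by norm_num)
        (by norm_num) (pow_nonneg (by norm_num) k)
    refine le_trans h1 ?_
    exact_mod_cast ball_odd k

theorem infinite_GG : Infinite GG := by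
  by_contra hcon
  rw [not_infinite_iff_finite] at hcon
  obtain ⟨n, hn⟩ := pow_unbounded_of_one_lt (Nat.card GG : ℝ) (show (1 : ℝ) < 7 / 5 by norm_num)
  have h1 := ball_growth n
  have h2 : (ball n).ncard ≤ Nat.card GG := by
    rw [← Set.ncard_univ]
    exact Set.ncard_le_ncard (Set.subset_univ _) Set.finite_univ
  have h3 : ((ball n).ncard : ℝ) ≤ (Nat.card GG : ℝ) := by exact_mod_cast h2
  linarith

theorem sublinear (ε : ℝ) (hε : 0 < ε) : ∃ N0 : ℕ, ∀ n : ℕ, N0 ≤ n → ∀ g : GG,
    g ∈ ball n → (orderOf g : ℝ) ≤ ε * n := by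
  obtain ⟨M, hM⟩ := exists_nat_gt (512 / ε ^ 2)
  refine ⟨M + N 0, fun n hn g hg => ?_⟩
  obtain ⟨w, hw, rfl⟩ := (mem_ball n g).mp hg
  obtain ⟨k, hk1, hk2⟩ := exists_clog n
  have h1 : orderOf (eg w) ≤ 4 * 2 ^ k * 2 :=
    Nat.le_of_dvd (by positivity) (orderOf_dvd_of_pow_eq_one (eg_pow w n k hw hk1))
  have h2 : (orderOf (eg w) : ℝ) ≤ 8 * 2 ^ k := by
    have : orderOf (eg w) ≤ 8 * 2 ^ k := by omega
    exact_mod_cast this
  refine le_trans h2 ?_
  have h3 : ((4 : ℝ)) ^ k ≤ 8 * n := by
    have : 4 ^ k ≤ 8 * n := by omega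
    exact_mod_cast this
  have h4 : (8 * (2 : ℝ) ^ k) ^ 2 ≤ (ε * n) ^ 2 := by
    have e1 : (8 * (2 : ℝ) ^ k) ^ 2 = 64 * 4 ^ k := by
      rw [mul_pow, ← pow_mul, mul_comm k 2, pow_mul]; norm_num
    have hMn : (M : ℝ) ≤ n := by
      have : M ≤ n := by omega
      exact_mod_cast this
    have e2 : 512 ≤ ε ^ 2 * n := by
      have h5 : 512 / ε ^ 2 < n := lt_of_lt_of_le hM hMn
      rw [div_lt_iff₀ (by positivity)] at h5
      linarith
    have hn0 : (0 : ℝ) ≤ n := Nat.cast_nonneg n
    rw [e1, mul_pow]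
    calc 64 * (4 : ℝ) ^ k ≤ 64 * (8 * n) := by linarith
      _ = 512 * n := by ring
      _ ≤ (ε ^ 2 * n) * n := mul_le_mul_of_nonneg_right e2 hn0
      _ = ε ^ 2 * (n : ℝ) ^ 2 := by ring
  exact le_of_sq_le_sq h4 (by positivity)

end Pool.Agent.Lib.MP_166ce5_al
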