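import Mathlib

/-!
# The tower of elementary abelian 2-groups and the directed involution

At level `i` the alphabet is `A i = (Z/2)^(N i)`.  The set `Y i m` is the set of words of
length `m` over the alphabets `A i, A (i+1), ...`.  The group acting on it is generated by the
translations of the first letter and by the directed involution `bb i m`.
-/

set_option autoImplicit false

namespace Pool.Agent.Lib.MP_166ce5_al

/-- Weight threshold at level `i`. -/
def D (i : ℕ) : ℕ := 2 * 4 ^ i

/-- Rank of the elementary abelian group at level `i`. -/
def N (i : ℕ) : ℕ := D i + 1 + (2 * i + 5)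

/-- The elementary abelian `2`-group at level `i`. -/
abbrev A (i : ℕ) : Type := Fin (N i) → ZMod 2

/-- Auxiliary injection: basis vectors of the next level to heavy vectors of this level. -/
def psi (i : ℕ) (j : Fin (N (i + 1))) : A i := fun k =>
  if k.val < D i + 1 then 1 else if Nat.testBit j.val (k.val - (D i + 1)) then 1 else 0

theorem N_succ_le (i : ℕ) : N (i + 1) ≤ 2 ^ (2 * i + 5) := by
  have h1 : (2 : ℕ) ^ (2 * i + 5) = 32 * 4 ^ i := by
    rw [pow_add, pow_mul]; norm_num; ring
  have h2 : i < 4 ^ i := Nat.lt_pow_self (by norm_num)
  unfold N D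
  rw [h1, pow_succ]
  omega

theorem psi_injective (i : ℕ) : Function.Injective (psi i) := by
  intro j j' h
  apply Fin.ext
  apply Nat.eq_of_testBit_eq
  intro b
  by_cases hb : b < 2 * i + 5
  · have hk : D i + 1 + b < N i := by unfold N; omega
    have := congrFun h ⟨D i + 1 + b, hk⟩
    simp only [psi] at this
    have hnot : ¬ (D i + 1 + b < D i + 1) := by omega
    rw [if_neg hnot, if_neg hnot] at this
    have hsub : D i + 1 + b - (D i + 1) = b := by omega
    rw [hsub] at this
    by_cases h1 : Nat.testBit j.val b <;> by_cases h2 : Nat.testBit j'.val b <;>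
      simp [h1, h2] at this ⊢
  · have hlt : j.val < 2 ^ b :=
      lt_of_lt_of_le (lt_of_lt_of_le j.isLt (N_succ_le i))
        (Nat.pow_le_pow_right (by norm_num) (by omega))
    have hlt' : j'.val < 2 ^ b :=
      lt_of_lt_of_le (lt_of_lt_of_le j'.isLt (N_succ_le i))
        (Nat.pow_le_pow_right (by norm_num) (by omega))
    rw [Nat.testBit_lt_two_pow hlt, Nat.testBit_lt_two_pow hlt']

/-- The support of a vector. -/
def supp {i : ℕ} (x : A i) : Finset (Fin (N i)) := Finset.univ.filter (fun k => x k ≠ 0)

theorem supp_psi_card (i : ℕ) (j : Fin (N (i + 1))) : D i < (supp (psi i j)).card := by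
  have hle : D i + 1 ≤ N i := by unfold N; omega
  have hsub : (Finset.univ : Finset (Fin (D i + 1))).map (Fin.castLEEmb hle) ⊆ supp (psi i j) := by
    intro k hk
    simp only [Finset.mem_map, Finset.mem_univ, true_and] at hk
    obtain ⟨a, rfl⟩ := hk
    have ha : a.val < D i + 1 := a.isLt
    have h1 : psi i j (Fin.castLE hle a) = 1 := by
      unfold psi
      rw [if_pos (by simpa using ha)]
    refine Finset.mem_filter.mpr ⟨Finset.mem_univ _, ?_⟩
    show psi i j (Fin.castLE hle a) ≠ 0
    rw [h1]
    exact one_ne_zero
  have := Finset.card_le_card hsub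
  simp only [Finset.card_map, Finset.card_univ, Fintype.card_fin] at this
  omega

theorem exists_lam (i : ℕ) : ∃ lam : A i → A (i + 1),
    (∀ x, lam x = 0 ∨ ∃ j, lam x = Pi.single j 1) ∧
    (∀ x, (supp x).card ≤ D i → lam x = 0) ∧
    (∀ j, ∃ x, x ≠ 0 ∧ lam x = Pi.single j 1) := by
  classical
  refine ⟨fun x => if h : ∃ j, psi i j = x then Pi.single h.choose 1 else 0, ?_, ?_, ?_⟩
  · intro x
    by_cases h : ∃ j, psi i j = x
    · right; exact ⟨h.choose, by simp only [dif_pos h]⟩
    · left; simp only [dif_neg h]
  · intro x hx
    have h : ¬ ∃ j, psi i j = x := by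
      rintro ⟨j, rfl⟩
      exact absurd (supp_psi_card i j) (by omega)
    simp only [dif_neg h]
  · intro j
    refine ⟨psi i j, ?_, ?_⟩
    · intro h0
      have := supp_psi_card i j
      rw [h0] at this
      simp [supp] at this
    · have h : ∃ j', psi i j' = psi i j := ⟨j, rfl⟩
      have : h.choose = j := psi_injective i h.choose_spec
      simp only [dif_pos h, this]

/-- The label function of the directed involution. -/
noncomputable def lam (i : ℕ) : A i → A (i + 1) := (exists_lam i).choose

theorem lam_zero_or_single (i : ℕ) (x : A i) : lam i x = 0 ∨ ∃ j, lam i x = Pi.single j 1 :=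
  (exists_lam i).choose_spec.1 x

theorem lam_light (i : ℕ) (x : A i) (h : (supp x).card ≤ D i) : lam i x = 0 :=
  (exists_lam i).choose_spec.2.1 x h

theorem lam_surj (i : ℕ) (j : Fin (N (i + 1))) : ∃ x, x ≠ 0 ∧ lam i x = Pi.single j 1 :=
  (exists_lam i).choose_spec.2.2 j

theorem A_add_self {i : ℕ} (x : A i) : x + x = 0 := by
  funext k
  exact CharTwo.add_self_eq_zero (x k)

/-- Words of length `m` over the alphabets `A i, A (i+1), ...`. -/
def Y : ℕ → ℕ → Type
  | _, 0 => Unit
  | i, m + 1 => A i × Y (i + 1) m

/-- The base point. -/
def y0 : (i m : ℕ) → Y i m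
  | _, 0 => ()
  | i, m + 1 => ((0 : A i), y0 (i + 1) m)

instance finiteY : (i m : ℕ) → Finite (Y i m)
  | _, 0 => inferInstanceAs (Finite Unit)
  | i, m + 1 => by
      have := finiteY (i + 1) m
      exact inferInstanceAs (Finite (A i × Y (i + 1) m))

/-- Pairing. -/
def mk {i m : ℕ} (x : A i) (y : Y (i + 1) m) : Y i (m + 1) := (x, y)

theorem mk_surj {i m : ℕ} (z : Y i (m + 1)) : ∃ x y, z = mk x y := ⟨z.1, z.2, rfl⟩

theorem mk_inj {i m : ℕ} {x x' : A i} {y y' : Y (i + 1) m} :
    mk x y = mk x' y' ↔ x = x' ∧ y = y' := by
  constructor
  · intro h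
    exact ⟨congrArg Prod.fst h, congrArg Prod.snd h⟩
  · rintro ⟨rfl, rfl⟩; rfl

theorem perm_ext {i m : ℕ} {f g : Equiv.Perm (Y i (m + 1))}
    (h : ∀ x y, f (mk x y) = g (mk x y)) : f = g := by
  apply Equiv.ext
  intro z
  obtain ⟨x, y, rfl⟩ := mk_surj z
  exact h x y

/-- Translation of the first letter. -/
def tr : (i m : ℕ) → A i → Equiv.Perm (Y i m)
  | _, 0, _ => Equiv.refl _
  | i, m + 1, a => (Equiv.prodCongr (Equiv.addLeft a) (Equiv.refl (Y (i + 1) m)) :
      Equiv.Perm (A i × Y (i + 1) m))

open Classical in
/-- The directed involution. -/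
noncomputable def bb : (i m : ℕ) → Equiv.Perm (Y i m)
  | _, 0 => Equiv.refl _
  | i, m + 1 => (Equiv.prodShear (Equiv.refl (A i))
      (fun x => if x = 0 then bb (i + 1) m else tr (i + 1) m (lam i x)) :
      Equiv.Perm (A i × Y (i + 1) m))

theorem tr_succ (i m : ℕ) (a x : A i) (y : Y (i + 1) m) :
    tr i (m + 1) a (mk x y) = mk (a + x) y := rfl

theorem bb_succ (i m : ℕ) (x : A i) (y : Y (i + 1) m) :
    bb i (m + 1) (mk x y) =
      mk x ((open Classical in if x = 0 then bb (i + 1) m else tr (i + 1) m (lam i x)) y) := by
  simp only [bb]
  rfl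

theorem bb_succ_zero (i m : ℕ) (y : Y (i + 1) m) :
    bb i (m + 1) (mk (0 : A i) y) = mk (0 : A i) (bb (i + 1) m y) := by
  rw [bb_succ, if_pos rfl]

theorem bb_succ_ne (i m : ℕ) (x : A i) (hx : x ≠ 0) (y : Y (i + 1) m) :
    bb i (m + 1) (mk x y) = mk x (tr (i + 1) m (lam i x) y) := by
  rw [bb_succ, if_neg hx]

theorem tr_add (i m : ℕ) (a a' : A i) : tr i m a * tr i m a' = tr i m (a + a') := by
  cases m with
  | zero => rfl
  | succ m =>
    apply perm_ext
    intro x y
    rw [Equiv.Perm.mul_apply, tr_succ, tr_succ, tr_succ, add_assoc]

theorem tr_zero (i m : ℕ) : tr i m (0 : A i) = 1 := by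
  cases m with
  | zero => rfl
  | succ m =>
    apply perm_ext
    intro x y
    rw [tr_succ, zero_add, Equiv.Perm.one_apply]

theorem tr_sq (i m : ℕ) (a : A i) : tr i m a * tr i m a = 1 := by
  rw [tr_add, A_add_self, tr_zero]

theorem bb_sq : (i m : ℕ) → bb i m * bb i m = 1
  | _, 0 => rfl
  | i, m + 1 => by
      apply perm_ext
      intro x y
      rw [Equiv.Perm.mul_apply, Equiv.Perm.one_apply]
      by_cases hx : x = 0
      · subst hx
        rw [bb_succ_zero, bb_succ_zero, ← Equiv.Perm.mul_apply, bb_sq (i + 1) m,
          Equiv.Perm.one_apply]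
      · rw [bb_succ_ne _ _ _ hx, bb_succ_ne _ _ _ hx, ← Equiv.Perm.mul_apply, tr_sq,
          Equiv.Perm.one_apply]

/-- Letters at level `i`: `none` is the directed involution, `some a` the translation. -/
noncomputable def letter (i m : ℕ) : Option (A i) → Equiv.Perm (Y i m)
  | none => bb i m
  | some a => tr i m a

theorem letter_sq (i m : ℕ) (l : Option (A i)) : letter i m l * letter i m l = 1 := by
  cases l with
  | none => exact bb_sq i m
  | some a => exact tr_sq i m a

/-- Evaluation of words. -/
noncomputable def ev (i m : ℕ) (w : List (Option (A i))) : Equiv.Perm (Y i m) :=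
  (w.map (letter i m)).prod

theorem ev_nil (i m : ℕ) : ev i m [] = 1 := rfl

theorem ev_cons (i m : ℕ) (l : Option (A i)) (w : List (Option (A i))) :
    ev i m (l :: w) = letter i m l * ev i m w := by
  simp [ev]

theorem ev_append (i m : ℕ) (w w' : List (Option (A i))) :
    ev i m (w ++ w') = ev i m w * ev i m w' := by
  simp [ev]

/-- Total translation of a word. -/
def tot {i : ℕ} : List (Option (A i)) → A i
  | [] => 0
  | none :: w => tot w
  | some a :: w => a + tot w

open Classical in
/-- The section word of a word at the first letter `x`. -/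
noncomputable def sec {i : ℕ} : List (Option (A i)) → A i → List (Option (A (i + 1)))
  | [], _ => []
  | none :: w, x => (if tot w + x = 0 then none else some (lam i (tot w + x))) :: sec w x
  | some _ :: w, x => sec w x

theorem ev_succ (i m : ℕ) (w : List (Option (A i))) (x : A i) (y : Y (i + 1) m) :
    ev i (m + 1) w (mk x y) = mk (tot w + x) (ev (i + 1) m (sec w x) y) := by
  induction w with
  | nil => simp [ev_nil, tot, sec]
  | cons l w ih =>
    rw [ev_cons, Equiv.Perm.mul_apply, ih]
    cases l with
    | none =>
      by_cases h : tot w + x = 0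
      · simp only [letter, tot, sec, h, if_true, ev_cons, Equiv.Perm.mul_apply]
        exact bb_succ_zero i m _
      · simp only [letter, tot, sec, if_neg h, ev_cons, Equiv.Perm.mul_apply]
        exact bb_succ_ne i m _ h _
    | some a =>
      simp only [letter, tot, sec]
      rw [tr_succ, add_assoc]

theorem tot_append {i : ℕ} (w w' : List (Option (A i))) : tot (w ++ w') = tot w + tot w' := by
  induction w with
  | nil => simp [tot]
  | cons l w ih =>
    cases l with
    | none => simpa [tot] using ih
    | some a => simp [tot, ih, add_assoc]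

theorem sec_append {i : ℕ} (w w' : List (Option (A i))) (x : A i) :
    sec (w ++ w') x = sec w (tot w' + x) ++ sec w' x := by
  induction w with
  | nil => simp [sec]
  | cons l w ih =>
    cases l with
    | none => simp [sec, ih, tot_append, add_assoc]
    | some a => simpa [sec] using ih

/-- Number of directed letters in a word. -/
def bet {i : ℕ} : List (Option (A i)) → ℕ
  | [] => 0
  | none :: w => bet w + 1
  | some _ :: w => bet w

theorem bet_append {i : ℕ} (w w' : List (Option (A i))) : bet (w ++ w') = bet w + bet w' := by
  induction w with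
  | nil => simp [bet]
  | cons l w ih =>
    cases l with
    | none => simp [bet, ih]; ring
    | some a => simpa [bet] using ih

theorem bet_le_length {i : ℕ} (w : List (Option (A i))) : bet w ≤ w.length := by
  induction w with
  | nil => simp [bet]
  | cons l w ih =>
    cases l with
    | none => simp [bet]; exact ih
    | some a => simp [bet]; omega

theorem length_sec {i : ℕ} (w : List (Option (A i))) (x : A i) : (sec w x).length = bet w := by
  induction w with
  | nil => simp [bet, sec]
  | cons l w ih =>
    cases l with
    | none => simp [bet, sec, ih]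
    | some a => simpa [bet, sec] using ih

theorem bet_sec_le {i : ℕ} (w : List (Option (A i))) (x : A i) : bet (sec w x) ≤ bet w := by
  rw [← length_sec w x]
  exact bet_le_length _

theorem bet_sec_add {i : ℕ} (w : List (Option (A i))) (x a : A i) (ha : a ≠ 0) :
    bet (sec w (a + x)) + bet (sec w x) ≤ bet w := by
  induction w with
  | nil => simp [bet, sec]
  | cons l w ih =>
    cases l with
    | none =>
      simp only [sec, bet]
      by_cases h1 : tot w + (a + x) = 0
      · by_cases h2 : tot w + x = 0
        · exfalso
          apply ha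
          have : a + (tot w + x) = 0 := by rw [← h1]; abel
          rwa [h2, add_zero] at this
        · simp only [h1, h2, if_true, if_false, bet]
          omega
      · by_cases h2 : tot w + x = 0
        · simp only [h1, h2, if_true, if_false, bet]
          omega
        · simp only [h1, h2, if_false, bet]
          omega
    | some a' => simpa [bet, sec] using ih

/-- A word is supported in `U` if all its translations are. -/
def SuppIn {i : ℕ} (w : List (Option (A i))) (U : Finset (Fin (N i))) : Prop :=
  ∀ a : A i, some a ∈ w → ∀ j, a j ≠ 0 → j ∈ U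

theorem tot_supp {i : ℕ} (w : List (Option (A i))) (U : Finset (Fin (N i))) (h : SuppIn w U)
    (j : Fin (N i)) (hj : j ∉ U) : tot w j = 0 := by
  induction w with
  | nil => simp [tot]
  | cons l w ih =>
    have h' : SuppIn w U := fun a ha => h a (List.mem_cons_of_mem _ ha)
    cases l with
    | none => simpa [tot] using ih h'
    | some a =>
      have : a j = 0 := by
        by_contra hne
        exact hj (h a (by simp) j hne)
      simp [tot, ih h', this]

theorem exists_supp {i : ℕ} (w : List (Option (A i))) (x : A i) :
    ∃ U : Finset (Fin (N (i + 1))), U.card ≤ bet w ∧ SuppIn (sec w x) U := by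
  induction w with
  | nil => exact ⟨∅, by simp, by intro a ha; simp [sec] at ha⟩
  | cons l w ih =>
    obtain ⟨U, hU, hs⟩ := ih
    cases l with
    | some a => exact ⟨U, by simpa [bet] using hU, by simpa [sec] using hs⟩
    | none =>
      by_cases h0 : tot w + x = 0
      · refine ⟨U, by simp [bet]; omega, ?_⟩
        intro a ha
        simp only [sec, h0, if_true, List.mem_cons] at ha
        rcases ha with ha | ha
        · cases ha
        · exact hs a ha
      · rcases lam_zero_or_single i (tot w + x) with hl | ⟨j0, hl⟩
        · refine ⟨U, by simp [bet]; omega, ?_⟩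
          intro a ha
          simp only [sec, h0, if_false, List.mem_cons] at ha
          rcases ha with ha | ha
          · intro j hj
            rw [Option.some_inj] at ha
            rw [ha, hl] at hj
            simp at hj
          · exact hs a ha
        · refine ⟨insert j0 U, ?_, ?_⟩
          · have := Finset.card_insert_le j0 U
            simp [bet]; omega
          · intro a ha
            simp only [sec, h0, if_false, List.mem_cons] at ha
            rcases ha with ha | ha
            · intro j hj
              rw [Option.some_inj] at ha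
              rw [ha, hl] at hj
              have : j = j0 := by
                by_contra hne
                exact hj (Pi.single_eq_of_ne hne _)
              simp [this]
            · intro j hj
              exact Finset.mem_insert_of_mem (hs a ha j hj)

/-- If a word has no directed letter then its evaluation is a translation. -/
theorem ev_noNone (i m : ℕ) (v : List (Option (A i))) (h : none ∉ v) :
    ev i m v = tr i m (tot v) := by
  induction v with
  | nil => simp [ev_nil, tot, tr_zero]
  | cons l v ih =>
    have h' : none ∉ v := fun hh => h (List.mem_cons_of_mem _ hh)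
    cases l with
    | none => exact absurd (by simp) h
    | some a => rw [ev_cons, ih h']; simp only [letter, tot]; rw [tr_add]

theorem ev_noSome (i m : ℕ) (v : List (Option (A i))) (h : ∀ a, some a ∈ v → a = 0) :
    ev i m v = bb i m ^ (bet v) := by
  induction v with
  | nil => simp [ev_nil, bet]
  | cons l v ih =>
    have h' : ∀ a, some a ∈ v → a = 0 := fun a ha => h a (List.mem_cons_of_mem _ ha)
    rw [ev_cons, ih h']
    cases l with
    | none => simp only [letter, bet]; rw [pow_succ']
    | some a =>
      have : a = 0 := h a (by simp)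
      subst this
      simp only [letter, bet, tr_zero, one_mul]

/-- Letters of the section when the starting point is in the span of `U` (light case). -/
theorem sec_light {i : ℕ} (w : List (Option (A i))) (U : Finset (Fin (N i))) (hw : SuppIn w U)
    (hU : U.card ≤ D i) (x : A i) (hx : ∀ j, x j ≠ 0 → j ∈ U) :
    ∀ a, some a ∈ sec w x → a = 0 := by
  induction w with
  | nil => intro a ha; simp [sec] at ha
  | cons l w ih =>
    have hw' : SuppIn w U := fun a ha => hw a (List.mem_cons_of_mem _ ha)
    cases l with
    | some a' => simpa [sec] using ih hw'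
    | none =>
      intro a ha
      by_cases h0 : tot w + x = 0
      · simp only [sec, h0, if_true, List.mem_cons] at ha
        rcases ha with ha | ha
        · cases ha
        · exact ih hw' a ha
      · simp only [sec, h0, if_false, List.mem_cons] at ha
        rcases ha with ha | ha
        · rw [Option.some_inj] at ha
          rw [ha]
          apply lam_light
          refine le_trans (Finset.card_le_card ?_) hU
          intro j hj
          simp only [supp, Finset.mem_filter, Finset.mem_univ, true_and] at hj
          by_contra hjU
          apply hj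
          have h1 := tot_supp w U hw' j hjU
          have h2 : x j = 0 := by
            by_contra hne
            exact hjU (hx j hne)
          simp [h1, h2]
        · exact ih hw' a ha

/-- Letters of the section when the starting point is not in the span of `U` (heavy case). -/
theorem sec_heavy {i : ℕ} (w : List (Option (A i))) (U : Finset (Fin (N i))) (hw : SuppIn w U)
    (x : A i) (j : Fin (N i)) (hj : x j ≠ 0) (hjU : j ∉ U) :
    none ∉ sec w x := by
  induction w with
  | nil => simp [sec]
  | cons l w ih =>
    have hw' : SuppIn w U := fun a ha => hw a (List.mem_cons_of_mem _ ha)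
    cases l with
    | some a' => simpa [sec] using ih hw'
    | none =>
      have h0 : tot w + x ≠ 0 := by
        intro h
        have h1 := tot_supp w U hw' j hjU
        have h2 := congrFun h j
        simp [h1] at h2
        exact hj h2
      simp only [sec, h0, if_false, List.mem_cons, not_or]
      exact ⟨by simp, ih hw'⟩

/-- A stabilising permutation acting fibrewise: powers. -/
theorem pow_fibre (i m : ℕ) (w : List (Option (A i))) (hw : tot w = 0) (k : ℕ) (x : A i)
    (y : Y (i + 1) m) :
    ((ev i (m + 1) w) ^ k) (mk x y) = mk x (((ev (i + 1) m (sec w x)) ^ k) y) := by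
  induction k generalizing y with
  | zero => simp
  | succ k ih =>
    rw [pow_succ, Equiv.Perm.mul_apply, ev_succ, hw, zero_add, ih, pow_succ, Equiv.Perm.mul_apply]

/-- Main lemma: bounded exponent. -/
theorem main_pow (n : ℕ) : ∀ (k i m : ℕ) (w : List (Option (A i))), bet w ≤ n →
    (∃ U : Finset (Fin (N i)), U.card ≤ 2 * n ∧ SuppIn w U) → 2 * n ≤ D (i + k) →
    (ev i m w) ^ (4 * 2 ^ k) = 1 := by
  intro k
  induction k with
  | zero =>
    rintro i m w hb ⟨U, hU, hs⟩ hD
    cases m with
    | zero =>
      apply Equiv.ext
      intro z
      rfl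
    | succ m =>
      have hsq : (ev i (m + 1) w) ^ (4 * 2 ^ 0) = (ev i (m + 1) (w ++ w)) ^ 2 := by
        rw [ev_append, pow_zero, mul_one, ← pow_two, ← pow_mul]
      rw [hsq]
      have htot : tot (w ++ w) = 0 := by rw [tot_append, A_add_self]
      have hs2 : SuppIn (w ++ w) U := by
        intro a ha
        rw [List.mem_append] at ha
        rcases ha with ha | ha <;> exact hs a ha
      apply perm_ext
      intro x y
      rw [pow_fibre i m (w ++ w) htot]
      have key : (ev (i + 1) m (sec (w ++ w) x)) ^ 2 = 1 := by
        by_cases hx : ∀ j, x j ≠ 0 → j ∈ U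
        · have := sec_light (w ++ w) U hs2 (by simpa using le_trans hU hD) x hx
          rw [ev_noSome _ _ _ this, ← pow_mul, mul_comm, pow_mul, pow_two, bb_sq, one_pow]
        · push Not at hx
          obtain ⟨j, hj, hjU⟩ := hx
          have := sec_heavy (w ++ w) U hs2 x j hj hjU
          rw [ev_noNone _ _ _ this, pow_two, tr_sq]
      rw [key]
      rfl
  | succ k ih =>
    rintro i m w hb ⟨U, hU, hs⟩ hD
    cases m with
    | zero =>
      apply Equiv.ext
      intro z
      rfl
    | succ m =>
      have hD' : 2 * n ≤ D (i + 1 + k) := by
        have : i + (k + 1) = i + 1 + k := by ring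
        rwa [this] at hD
      by_cases h0 : tot w = 0
      · apply perm_ext
        intro x y
        rw [pow_fibre i m w h0]
        obtain ⟨U', hU', hs'⟩ := exists_supp w x
        have := ih (i + 1) m (sec w x) (le_trans (bet_sec_le w x) hb)
          ⟨U', by omega, hs'⟩ hD'
        have e : 4 * 2 ^ (k + 1) = (4 * 2 ^ k) * 2 := by ring
        rw [e, pow_mul, this, one_pow]
        rfl
      · have e : 4 * 2 ^ (k + 1) = 2 * (4 * 2 ^ k) := by ring
        rw [e, pow_mul, pow_two, ← ev_append]
        have htot : tot (w ++ w) = 0 := by rw [tot_append, A_add_self]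
        apply perm_ext
        intro x y
        rw [pow_fibre i m (w ++ w) htot]
        obtain ⟨U', hU', hs'⟩ := exists_supp (w ++ w) x
        have hb' : bet (sec (w ++ w) x) ≤ n := by
          rw [sec_append, bet_append]
          exact le_trans (bet_sec_add w x (tot w) h0) hb
        have hU'' : U'.card ≤ 2 * n := by
          rw [bet_append] at hU'
          omega
        have := ih (i + 1) m (sec (w ++ w) x) hb' ⟨U', hU'', hs'⟩ hD'
        rw [this]
        rfl

end Pool.Agent.Lib.MP_166ce5_al
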